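import Pool.Agent.Helper31.MHS.Goals2
import Pool.Agent.Helper46.MH.LSS

/-!
# Packet MHS-FOK: the values of the registers are right
-/

namespace Pool.Agent.Helper2.MHS

open Pool.Agent.Helper65.LinSpace Pool.Agent.Helper78.Mpc Pool.Agent.Helper28.Ram Finset
open Pool.Agent.Helper65.RT (Sim Par)
open Pool.Agent.Helper20.MH (Sys TRU_stmt)
open Pool.Agent.Helper31.MHS

/-- The digests do not depend on the root. -/
theorem Zt_root (m : Pool.Agent.Helper65.RT.Mach) (x : ℕ) (R : ℕ → ℕ) (y : ℕ) : ∀ i,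
    ({ m with root := x } : Pool.Agent.Helper65.RT.Mach).Zt R y i = m.Zt R y i
  | 0 => rfl
  | i + 1 => by
    have ih := Zt_root m x R y i
    show ({ m with root := x } : Pool.Agent.Helper65.RT.Mach).Zt R y i + 2 ^ (m.a * i) *
      m.g y i (({ m with root := x } : Pool.Agent.Helper65.RT.Mach).Zt R y i)
        (R (m.q y i (({ m with root := x } : Pool.Agent.Helper65.RT.Mach).Zt R y i))) =
      m.Zt R y i + 2 ^ (m.a * i) * m.g y i (m.Zt R y i) (R (m.q y i (m.Zt R y i)))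
    rw [ih]

/-- The values do not depend on the root. -/
theorem T_root (m : Pool.Agent.Helper65.RT.Mach) (x : ℕ) : ∀ k y,
    ({ m with root := x } : Pool.Agent.Helper65.RT.Mach).T k y = m.T k y
  | 0, _ => rfl
  | k + 1, y => by
    have ih : ({ m with root := x } : Pool.Agent.Helper65.RT.Mach).T k = m.T k :=
      funext (T_root m x k)
    show m.o y (({ m with root := x } : Pool.Agent.Helper65.RT.Mach).Zt
      (({ m with root := x } : Pool.Agent.Helper65.RT.Mach).T k) y (m.G * m.E)) =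
        m.o y (m.Zt (m.T k) y (m.G * m.E))
    rw [ih, Zt_root]

/-- The machine with a root. -/
theorem root_ok {m : Pool.Agent.Helper65.RT.Mach} (h : m.Ok) {x : ℕ} (hx : x < 2 ^ m.σ) :
    ({ m with root := x } : Pool.Agent.Helper65.RT.Mach).Ok where
  hσ := h.hσ
  ha := h.ha
  hb := h.hb
  hE := h.hE
  hG := h.hG
  hq := h.hq
  hg := h.hg
  ho := h.ho
  ht0 := h.ht0
  hroot := hx

/-- FOK. -/
theorem fok (hT : TRU_stmt) (hW : WOK_stmt) : FOK_stmt := by
  intro Q n P h1 h2 h3 h4 h5 h6 h7 c τ x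
  obtain ⟨hok, hnb⟩ := hW P c τ h1 h2
  have hx : x % 2 ^ (P.sys c τ).σ < 2 ^ (P.sys c τ).σ := Nat.mod_lt _ (by positivity)
  have hm : ((P.sys c τ).mach P.E P.G P.d).Ok := Pool.Agent.Helper46.MH.machOk hok h3 h4
  have hr : (P.mach c τ x).Ok := root_ok hm hx
  have hv := hT (P.sys c τ) P.E P.G P.d hok h5 h6 hnb P.d (x % 2 ^ (P.sys c τ).σ)
  rw [Nat.mod_mod] at hv
  show Q.sim n (P.mach c τ x) = _
  rw [Q.eq _ n hr (h7 c τ x)]
  exact (T_root ((P.sys c τ).mach P.E P.G P.d) _ _ _).trans hv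

end Pool.Agent.Helper2.MHS
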